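import Mathlib
import Pool.Agent.H.MP_dc39f7_co.A

set_option autoImplicit false

namespace Pool.Agent.Results.MP_dc39f7_co.No

open SimpleGraph Pool.Agent.H.MP_dc39f7_co

/-- The edge-ordered graph `(G, oG)` contains the edge-ordered graph `(F, oF)`: some copy of `F`
in `G` (an injective homomorphism) preserves and reflects the edge order. -/
def Contains {V W : Type} (G : SimpleGraph V) (oG : LinearOrder G.edgeSet)
    (F : SimpleGraph W) (oF : LinearOrder F.edgeSet) : Prop :=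
  ∃ φ : F.Copy G, ∀ e e' : F.edgeSet, oF.lt e e' ↔ oG.lt (φ.mapEdgeSet e) (φ.mapEdgeSet e')

/-- The order chromatic number: the least chromatic number of a finite simple graph `H` all of
whose edge-orderings contain `(F, oF)`; it is `⊤` if there is no such `H`. -/
noncomputable def ochi {W : Type} (F : SimpleGraph W) (oF : LinearOrder F.edgeSet) : ℕ∞ :=
  sInf {c | ∃ (n : ℕ) (H : SimpleGraph (Fin n)),
    (∀ oH : LinearOrder H.edgeSet, Contains H oH F oF) ∧ H.chromaticNumber = c}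

/-- label of the edge `{i, i+1}` of the path -/
def lam (s i : ℕ) : ℕ :=
  if s + 1 ≤ i then 2 * (i - s) + 3 else if i = s then 2 else if i + 1 = s then 1
  else if i + 2 = s then 3 else 2 * (s - i) - 2

theorem lam_inj (s i j : ℕ) (h : lam s i = lam s j) : i = j := by
  unfold lam at h
  split_ifs at h <;> omega

def ix {k : ℕ} (e : Sym2 (Fin k)) : ℕ :=
  Sym2.lift ⟨fun a b : Fin k => min a.1 b.1, fun a b => min_comm _ _⟩ e

theorem edge_form {k : ℕ} (e : (pathGraph k).edgeSet) : ∃ h : ix e.1 + 1 < k,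
    e.1 = s(⟨ix e.1, by omega⟩, ⟨ix e.1 + 1, h⟩) := by
  obtain ⟨e, he⟩ := e
  induction e using Sym2.ind with
  | h a b =>
    have h := pathGraph_adj.1 ((mem_edgeSet _).1 he)
    have ha := a.2
    have hb := b.2
    have hx : ix s(a, b) = min a.1 b.1 := rfl
    refine ⟨by simp only [hx]; omega, ?_⟩
    simp only [hx, Sym2.eq_iff, Fin.ext_iff]
    omega

def ord (s k : ℕ) : LinearOrder (pathGraph k).edgeSet :=
  LinearOrder.lift' (fun e => lam s (ix e.1)) (by
    intro e e' h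
    have h1 := lam_inj _ _ _ h
    obtain ⟨h2, h3⟩ := edge_form e
    obtain ⟨h4, h5⟩ := edge_form e'
    apply Subtype.ext
    rw [h3, h5]
    simp only [Sym2.eq_iff, Fin.ext_iff]
    omega)

theorem ord_lt (s k : ℕ) (e e' : (pathGraph k).edgeSet) :
    (ord s k).lt e e' ↔ lam s (ix e.1) < lam s (ix e'.1) := Iff.rfl

def pe {k : ℕ} (i : ℕ) (h : i + 1 < k) : (pathGraph k).edgeSet :=
  ⟨s(⟨i, by omega⟩, ⟨i + 1, h⟩), (mem_edgeSet _).2 (pathGraph_adj.2 (Or.inl rfl))⟩

theorem ix_pe {k : ℕ} (i : ℕ) (h : i + 1 < k) : ix (pe i h).1 = i := by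
  show min i (i + 1) = i
  omega

theorem lower (m n : ℕ) (H : SimpleGraph (Fin n)) (c : H.Coloring (Fin m → Bool)) :
    ∃ oH : LinearOrder H.edgeSet,
      ¬ Contains H oH (pathGraph (4 * m + 6)) (ord (2 * m + 3) (4 * m + 6)) := by
  have hex : ∀ e : H.edgeSet, ∃ (i : Fin m) (u v : Fin n),
      e.1 = s(u, v) ∧ c u i = false ∧ c v i = true := by
    rintro ⟨e, he⟩
    induction e using Sym2.ind with
    | h a b =>
      obtain ⟨i, hi⟩ := Function.ne_iff.1 (c.valid ((mem_edgeSet _).1 he))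
      cases h1 : c a i
      · exact ⟨i, a, b, rfl, h1, by simpa [h1] using hi⟩
      · exact ⟨i, b, a, Sym2.eq_swap, by simpa [h1] using hi, h1⟩
  choose lev lo hi h1 h2 h3 using hex
  let key : H.edgeSet → Fin m ×ₗ Fin n ×ₗ Fin n := fun e => toLex (lev e, toLex (lo e, hi e))
  have hk : Function.Injective key := by
    intro e e' h
    simp only [key, toLex_inj, Prod.mk.injEq] at h
    apply Subtype.ext
    rw [h1, h1, h.2.1, h.2.2]
  refine ⟨LinearOrder.lift' key hk, ?_⟩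
  rintro ⟨φ, hφ⟩
  have hlt : ∀ i j (hi : i + 1 < 4 * m + 6) (hj : j + 1 < 4 * m + 6),
      lam (2 * m + 3) i < lam (2 * m + 3) j →
      (lev (φ.mapEdgeSet (pe i hi))).1 < (lev (φ.mapEdgeSet (pe j hj))).1 ∨
      ((lev (φ.mapEdgeSet (pe i hi))).1 = (lev (φ.mapEdgeSet (pe j hj))).1 ∧
        (lo (φ.mapEdgeSet (pe i hi))).1 ≤ (lo (φ.mapEdgeSet (pe j hj))).1) := by
    intro i j hi hj h
    have h4 : key (φ.mapEdgeSet (pe i hi)) < key (φ.mapEdgeSet (pe j hj)) :=
      (hφ _ _).1 ((ord_lt _ _ _ _).2 (by rwa [ix_pe, ix_pe]))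
    simp only [key, Prod.Lex.toLex_lt_toLex, Fin.lt_def, Fin.ext_iff] at h4
    omega
  have hlo : ∀ i (hi : i + 1 < 4 * m + 6),
      lo (φ.mapEdgeSet (pe i hi)) = φ ⟨i, by omega⟩ ∨ lo (φ.mapEdgeSet (pe i hi)) = φ ⟨i + 1, hi⟩ := by
    intro i hi
    have h4 : s(φ ⟨i, by omega⟩, φ ⟨i + 1, hi⟩) = _ := h1 (φ.mapEdgeSet (pe i hi))
    rcases Sym2.eq_iff.1 h4 with h | h
    · exact Or.inl h.1.symm
    · exact Or.inr h.2.symm
  have hlo2 : ∀ i (hi : i + 1 < 4 * m + 6) (x : Fin (4 * m + 6)), (x.1 = i ∨ x.1 = i + 1) →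
      c (φ x) (lev (φ.mapEdgeSet (pe i hi))) = false → lo (φ.mapEdgeSet (pe i hi)) = φ x := by
    intro i hi x hx hc
    have h4 : s(φ ⟨i, by omega⟩, φ ⟨i + 1, hi⟩) = _ := h1 (φ.mapEdgeSet (pe i hi))
    have h5 := h3 (φ.mapEdgeSet (pe i hi))
    have h6 : x = ⟨i, by omega⟩ ∨ x = ⟨i + 1, hi⟩ := by
      simpa only [Fin.ext_iff] using hx
    rcases Sym2.eq_iff.1 h4 with h | h <;> rcases h6 with rfl | rfl
    · exact h.1.symm
    · rw [h.2, h5] at hc; exact absurd hc (by simp)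
    · rw [h.1, h5] at hc; exact absurd hc (by simp)
    · exact h.2.symm
  -- a vertex of the run whose two edges are on the same level is not a low endpoint
  have hclose : ∀ i (hi : i + 1 + 1 < 4 * m + 6), 2 * m + 4 ≤ i →
      lev (φ.mapEdgeSet (pe i (by omega))) = lev (φ.mapEdgeSet (pe (i + 1) hi)) →
      c (φ ⟨i + 1, by omega⟩) (lev (φ.mapEdgeSet (pe (i + 1) hi))) = false → False := by
    intro i hi hs hl hc
    have a1 := hlo2 (i + 1) hi ⟨i + 1, by omega⟩ (Or.inl rfl) hc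
    have a2 := hlo2 i (by omega) ⟨i + 1, by omega⟩ (Or.inr rfl) (by rw [hl]; exact hc)
    have b1 := hlt i (4 * m + 3 - i) (by omega) (by omega) (by unfold lam; split_ifs <;> omega)
    have b2 := hlt (4 * m + 3 - i) (i + 1) (by omega) hi (by unfold lam; split_ifs <;> omega)
    rw [a1] at b2
    rw [a2, hl] at b1
    have b3 : lo (φ.mapEdgeSet (pe (4 * m + 3 - i) (by omega))) = φ ⟨i + 1, by omega⟩ := by
      apply Fin.ext; omega
    rcases hlo (4 * m + 3 - i) (by omega) with h | h <;>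
    · rw [b3] at h
      have := congrArg Fin.val (φ.injective h)
      simp only at this
      omega
  have hstep : ∀ i (hi : i + 2 + 1 < 4 * m + 6), 2 * m + 4 ≤ i →
      (lev (φ.mapEdgeSet (pe i (by omega)))).1 < (lev (φ.mapEdgeSet (pe (i + 2) hi))).1 := by
    intro i hi hs
    by_contra hn
    have b1 := hlt i (i + 1) (by omega) (by omega) (by unfold lam; split_ifs <;> omega)
    have b2 := hlt (i + 1) (i + 2) (by omega) hi (by unfold lam; split_ifs <;> omega)
    have e1 : lev (φ.mapEdgeSet (pe i (by omega))) = lev (φ.mapEdgeSet (pe (i + 1) (by omega))) := by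
      apply Fin.ext; omega
    have e2 : lev (φ.mapEdgeSet (pe (i + 1) (by omega))) = lev (φ.mapEdgeSet (pe (i + 2) hi)) := by
      apply Fin.ext; omega
    have h5 := h2 (φ.mapEdgeSet (pe (i + 1) (by omega)))
    rcases hlo (i + 1) (by omega) with h | h
    · exact hclose i (by omega) hs e1 (by rw [← h]; exact h5)
    · exact hclose (i + 1) hi (by omega) e2 (by rw [← h, ← e2]; exact h5)
  have hall : ∀ j (hj : 2 * m + 4 + 2 * j + 1 < 4 * m + 6),
      j ≤ (lev (φ.mapEdgeSet (pe (2 * m + 4 + 2 * j) hj))).1 := by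
    intro j
    induction j with
    | zero => intro _; exact Nat.zero_le _
    | succ j ih =>
      intro hj
      have a1 := ih (by omega)
      have a2 := hstep (2 * m + 4 + 2 * j) (by omega) (by omega)
      exact Nat.succ_le_of_lt (lt_of_le_of_lt a1 a2)
  have a1 := hall m (by omega)
  have a2 := (lev (φ.mapEdgeSet (pe (2 * m + 4 + 2 * m) (by omega)))).2
  omega

theorem embed {k M : ℕ} (s : ℕ) (o : LinearOrder (⊤ : SimpleGraph (Fin M)).edgeSet)
    (ℓ : Fin M → Fin M → ℕ)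
    (hl : ∀ a b c d (h : s(a, b) ∈ (⊤ : SimpleGraph (Fin M)).edgeSet)
      (h' : s(c, d) ∈ (⊤ : SimpleGraph (Fin M)).edgeSet), ℓ a b < ℓ c d → o.lt ⟨_, h⟩ ⟨_, h'⟩)
    (z : ℕ → Fin M) (hz : ∀ a b, a < k → b < k → z a = z b → a = b)
    (h : ∀ i j, i + 1 < k → j + 1 < k → lam s i < lam s j →
      ℓ (z i) (z (i + 1)) < ℓ (z j) (z (j + 1))) :
    Contains ⊤ o (pathGraph k) (ord s k) := by
  let f : pathGraph k →g (⊤ : SimpleGraph (Fin M)) :=
    ⟨fun a => z a.1, fun {a b} hab h => hab.ne (Fin.ext (hz _ _ a.2 b.2 h))⟩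
  let φ : (pathGraph k).Copy ⊤ := ⟨f, fun a b h => Fin.ext (hz _ _ a.2 b.2 h)⟩
  have key : ∀ e e' : (pathGraph k).edgeSet, (ord s k).lt e e' →
      o.lt (φ.mapEdgeSet e) (φ.mapEdgeSet e') := by
    intro e e' hlt
    obtain ⟨h2, h3⟩ := edge_form e
    obtain ⟨h4, h5⟩ := edge_form e'
    have a1 : e = pe _ h2 := Subtype.ext h3
    have a2 : e' = pe _ h4 := Subtype.ext h5
    have a3 := h _ _ h2 h4 ((ord_lt _ _ _ _).1 hlt)
    rw [a1, a2]
    exact hl _ _ _ _ _ _ a3
  refine ⟨φ, fun e e' => ⟨key e e', fun h1 => ?_⟩⟩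
  rcases @lt_trichotomy _ (ord s k) e e' with h2 | h2 | h2
  · exact h2
  · subst h2; exact absurd h1 (@lt_irrefl _ o.toPreorder _)
  · exact absurd h1 (@lt_asymm _ o.toPreorder _ _ (key _ _ h2))

def p1 (s i : ℕ) : ℕ := if i = s then 0 else if i < s then lam s i else lam s (i - 1)
def p2 (s i : ℕ) : ℕ :=
  if i = s then 1 else if i + 1 = s then 3 else if i < s then 2 * (s - i) else 2 * (i - s) + 3
def p3 (s i : ℕ) : ℕ :=
  if i = s then 1 else if i + 1 = s then 2 * s + 3 else if i + 2 = s then 3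
  else if i < s then 2 * (s - i) else 2 * (i - s) + 3

theorem rank (α : Type) [Fintype α] (o : LinearOrder α) :
    ∃ r : α → ℕ, Function.Injective r ∧ ∀ a b, r a < r b → o.lt a b :=
  ⟨fun a => ((monoEquivOfFin α rfl).symm a).1,
    fun _ _ h => (monoEquivOfFin α rfl).symm.injective (Fin.ext h),
    fun _ _ h => (monoEquivOfFin α rfl).symm.lt_iff_lt.1 h⟩

theorem upper (m : ℕ) : ∃ M : ℕ, ∀ o : LinearOrder (⊤ : SimpleGraph (Fin M)).edgeSet,
    Contains ⊤ o (pathGraph (4 * m + 6)) (ord (2 * m + 3) (4 * m + 6)) := by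
  classical
  obtain ⟨M, hM⟩ := canon (4 * m + 10) (by omega)
  refine ⟨M, fun o => ?_⟩
  obtain ⟨r, hr, hr'⟩ := rank _ o
  let L : Sym2 (Fin M) → ℕ := fun z =>
    if h : z ∈ (⊤ : SimpleGraph (Fin M)).edgeSet then r ⟨z, h⟩ else 0
  have hl : ∀ a b c d (h : s(a, b) ∈ (⊤ : SimpleGraph (Fin M)).edgeSet)
      (h' : s(c, d) ∈ (⊤ : SimpleGraph (Fin M)).edgeSet), L s(a, b) < L s(c, d) →
      o.lt ⟨_, h⟩ ⟨_, h'⟩ := by
    intro a b c d h h' hlt
    simp only [L, dif_pos h, dif_pos h'] at hlt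
    exact hr' _ _ hlt
  have hs : ∀ a b, L s(a, b) = L s(b, a) := fun a b => by rw [Sym2.eq_swap]
  obtain ⟨y, hy, hc⟩ := hM (fun a b => L s(a, b)) hs (by
    intro a b c d h1 h2 h3
    have h : s(a, b) ∈ (⊤ : SimpleGraph (Fin M)).edgeSet := (mem_edgeSet _).2 h1.ne
    have h' : s(c, d) ∈ (⊤ : SimpleGraph (Fin M)).edgeSet := (mem_edgeSet _).2 h2.ne
    simp only [L, dif_pos h, dif_pos h'] at h3
    have h4 := congrArg Subtype.val (hr h3)
    rcases Sym2.eq_iff.1 h4 with h5 | h5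
    · exact h5
    · exfalso; rw [h5.1, h5.2] at h1; exact lt_asymm h1 h2)
  have hT : ∀ a b, L s(y a, y b) = L s(y (min a b), y (max a b)) := by
    intro a b
    rcases le_total a b with h | h
    · rw [min_eq_left h, max_eq_right h]
    · rw [min_eq_right h, max_eq_left h, hs]
  rcases hc with hc | ⟨hc, ha | ha⟩
  · refine embed _ o (fun a b => L s(a, b)) hl (fun i => y (p1 (2 * m + 3) i)) ?_ ?_
    · intro a b h1 h2 h3
      have := hy _ _ (by unfold p1 lam; split_ifs <;> omega) (by unfold p1 lam; split_ifs <;> omega) h3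
      unfold p1 lam at this; split_ifs at this <;> omega
    · intro i j h1 h2 h3
      have f : ∀ i, i + 1 < 4 * m + 6 →
          min (p1 (2 * m + 3) i) (p1 (2 * m + 3) (i + 1)) < lam (2 * m + 3) i ∧
          max (p1 (2 * m + 3) i) (p1 (2 * m + 3) (i + 1)) = lam (2 * m + 3) i ∧
          lam (2 * m + 3) i < 4 * m + 10 := by
        intro i hi; unfold p1 lam; split_ifs <;> omega
      have f1 := f i h1
      have f2 := f j h2
      rw [hT, hT (p1 _ j)]
      exact hc _ _ _ _ (by omega) (by omega) (by omega) (by omega)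
  · refine embed _ o (fun a b => L s(a, b)) hl (fun i => y (p2 (2 * m + 3) i)) ?_ ?_
    · intro a b h1 h2 h3
      have := hy _ _ (by unfold p2; split_ifs <;> omega) (by unfold p2; split_ifs <;> omega) h3
      unfold p2 at this; split_ifs at this <;> omega
    · intro i j h1 h2 h3
      have f : ∀ i, i + 1 < 4 * m + 6 →
          min (p2 (2 * m + 3) i) (p2 (2 * m + 3) (i + 1)) =
            (if i = 2 * m + 3 then 1 else lam (2 * m + 3) i) ∧
          min (p2 (2 * m + 3) i) (p2 (2 * m + 3) (i + 1)) <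
            max (p2 (2 * m + 3) i) (p2 (2 * m + 3) (i + 1)) ∧
          max (p2 (2 * m + 3) i) (p2 (2 * m + 3) (i + 1)) < 4 * m + 10 := by
        intro i hi; unfold p2 lam; split_ifs <;> omega
      have f1 := f i h1
      have f2 := f j h2
      rw [hT, hT (p2 _ j)]
      by_cases hij : i = 2 * m + 2 ∧ j = 2 * m + 3
      · obtain ⟨rfl, rfl⟩ := hij
        have g1 : p2 (2 * m + 3) (2 * m + 2) = 3 := by unfold p2; split_ifs <;> omega
        have g2 : p2 (2 * m + 3) (2 * m + 3) = 1 := by unfold p2; split_ifs <;> omega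
        have g3 : p2 (2 * m + 3) (2 * m + 3 + 1) = 5 := by unfold p2; split_ifs <;> omega
        rw [g1, g2, g3]
        exact ha 1 3 5 (by omega) (by omega) (by omega)
      · refine hc _ _ _ _ f1.2.1 f2.2.1 ?_ f1.2.2 f2.2.2
        rw [f1.1, f2.1]
        unfold lam at h3 ⊢
        split_ifs at h3 ⊢ <;> omega
  · refine embed _ o (fun a b => L s(a, b)) hl (fun i => y (p3 (2 * m + 3) i)) ?_ ?_
    · intro a b h1 h2 h3
      have := hy _ _ (by unfold p3; split_ifs <;> omega) (by unfold p3; split_ifs <;> omega) h3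
      unfold p3 at this; split_ifs at this <;> omega
    · intro i j h1 h2 h3
      have f : ∀ i, i + 1 < 4 * m + 6 →
          min (p3 (2 * m + 3) i) (p3 (2 * m + 3) (i + 1)) =
            (if i = 2 * m + 3 then 1 else if i = 2 * m then 3 else lam (2 * m + 3) i) ∧
          min (p3 (2 * m + 3) i) (p3 (2 * m + 3) (i + 1)) <
            max (p3 (2 * m + 3) i) (p3 (2 * m + 3) (i + 1)) ∧
          max (p3 (2 * m + 3) i) (p3 (2 * m + 3) (i + 1)) < 4 * m + 10 := by
        intro i hi; unfold p3 lam; split_ifs <;> omega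
      have f1 := f i h1
      have f2 := f j h2
      rw [hT, hT (p3 _ j)]
      have g0 : p3 (2 * m + 3) (2 * m) = 6 := by unfold p3; split_ifs <;> omega
      have g4 : p3 (2 * m + 3) (2 * m + 1) = 3 := by unfold p3; split_ifs <;> omega
      have g1 : p3 (2 * m + 3) (2 * m + 2) = 4 * m + 9 := by unfold p3; split_ifs <;> omega
      have g2 : p3 (2 * m + 3) (2 * m + 3) = 1 := by unfold p3; split_ifs <;> omega
      have g3 : p3 (2 * m + 3) (2 * m + 3 + 1) = 5 := by unfold p3; split_ifs <;> omega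
      by_cases hij : i = 2 * m + 2 ∧ j = 2 * m + 3
      · obtain ⟨rfl, rfl⟩ := hij
        rw [g1, g2, g3, min_eq_right (by omega), max_eq_left (by omega)]
        exact ha 1 5 _ (by omega) (by omega) (by omega)
      by_cases hij' : i = 2 * m + 1 ∧ j = 2 * m
      · obtain ⟨rfl, rfl⟩ := hij'
        rw [g1, g4, g0, min_eq_left (by omega), max_eq_right (by omega)]
        exact ha 3 6 _ (by omega) (by omega) (by omega)
      · refine hc _ _ _ _ f1.2.1 f2.2.1 ?_ f1.2.2 f2.2.2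
        rw [f1.1, f2.1]
        unfold lam at h3 ⊢
        split_ifs at h3 ⊢ <;> omega

theorem bounds (m : ℕ) : ∃ P : LinearOrder (pathGraph (4 * m + 6)).edgeSet,
    ((2 ^ m : ℕ) : ℕ∞) < ochi (pathGraph (4 * m + 6)) P ∧ ochi (pathGraph (4 * m + 6)) P < ⊤ := by
  refine ⟨ord (2 * m + 3) (4 * m + 6), ?_, ?_⟩
  · refine lt_of_lt_of_le (b := ((2 ^ m + 1 : ℕ) : ℕ∞)) (by exact_mod_cast Nat.lt_succ_self _) ?_
    refine le_sInf ?_
    rintro c ⟨n, H, h1, rfl⟩
    by_contra hn
    have h2 : H.chromaticNumber ≤ ((2 ^ m : ℕ) : ℕ∞) := by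
      rw [not_le, Nat.cast_add, Nat.cast_one] at hn
      exact Order.le_of_lt_add_one hn
    obtain ⟨C⟩ := chromaticNumber_le_iff_colorable.1 h2
    obtain ⟨o, ho⟩ := lower m n H (H.recolorOfEquiv (Fintype.equivFinOfCardEq (by simp)).symm C)
    exact ho (h1 o)
  · obtain ⟨M, hM⟩ := upper m
    refine lt_of_le_of_lt (sInf_le ⟨M, ⊤, hM, rfl⟩) ?_
    rw [chromaticNumber_top]
    exact ENat.coe_lt_top _

theorem result :
    (∀ m : ℕ, ∃ P : LinearOrder (pathGraph (4 * m + 6)).edgeSet,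
      ((2 ^ m : ℕ) : ℕ∞) < ochi (pathGraph (4 * m + 6)) P ∧ ochi (pathGraph (4 * m + 6)) P < ⊤) ∧
    ¬ ∃ p : Polynomial ℝ, ∀ k : ℕ, 2 ≤ k → ∀ P : LinearOrder (pathGraph k).edgeSet,
      ochi (pathGraph k) P < ⊤ → ((ochi (pathGraph k) P).toNat : ℝ) ≤ p.eval (k : ℝ) := by
  refine ⟨bounds, ?_⟩
  rintro ⟨p, hp⟩
  have hl : 0 < Real.log 2 := Real.log_pos (by norm_num)
  let q := p.comp (Polynomial.C (4 / Real.log 2) * Polynomial.X + Polynomial.C 6)
  have h1 := q.tendsto_div_exp_atTop.comp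
    (tendsto_natCast_atTop_atTop.atTop_mul_const hl : Filter.Tendsto (fun m : ℕ => (m : ℝ) * Real.log 2) _ _)
  obtain ⟨m, hm⟩ := (h1.eventually (gt_mem_nhds one_pos)).exists
  obtain ⟨P, h2, h3⟩ := bounds m
  have h4 := hp _ (by omega) P h3
  obtain ⟨t, ht⟩ := ENat.ne_top_iff_exists.1 h3.ne
  rw [← ht] at h2 h4
  have h5 : (2 : ℝ) ^ m < t := by exact_mod_cast h2
  simp only [Function.comp, q, Polynomial.eval_comp, Polynomial.eval_add, Polynomial.eval_mul,
    Polynomial.eval_C, Polynomial.eval_X] at hm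
  rw [div_lt_one (Real.exp_pos _), Real.exp_nat_mul, Real.exp_log (by norm_num)] at hm
  have h6 : 4 / Real.log 2 * (m * Real.log 2) + 6 = ((4 * m + 6 : ℕ) : ℝ) := by
    push_cast; field_simp
  rw [h6] at hm
  simp only [ENat.toNat_coe] at h4
  linarith

end Pool.Agent.Results.MP_dc39f7_co.No
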